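import Pool.Agent.L5helper88.CP.Model

/-!
# The permanent and its partial derivatives

The permanent does not divide its partial derivatives, and it changes its sign at a zero where a
partial derivative is not zero.
-/

set_option autoImplicit false

open Finset MvPolynomial Filter Topology

namespace Pool.Agent.L5helper59.ZT

open Pool.Agent.L5helper88.Model

private lemma eval_pderiv_prod {ι σ : Type} [DecidableEq σ] (s : Finset ι) (f : ι → σ) (v : σ) :
    eval (fun _ => (1 : ℝ)) (pderiv v (∏ i ∈ s, (X (f i) : MvPolynomial σ ℝ))) =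
      ∑ i ∈ s, if f i = v then 1 else 0 := by
  classical
  induction s using Finset.induction_on with
  | empty => simp
  | insert a s ha ih =>
    rw [Finset.prod_insert ha, Finset.sum_insert ha, pderiv_mul, map_add, map_mul, map_mul, ih]
    have h1 : eval (fun _ => (1 : ℝ)) (∏ i ∈ s, (X (f i) : MvPolynomial σ ℝ)) = 1 := by
      rw [map_prod]
      simp
    rw [h1, eval_X, mul_one, one_mul, pderiv_X]
    congr 1
    by_cases h2 : f a = v
    · simp [h2]
    · simp [h2]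

private lemma pderiv_perm_ne_zero (m : ℕ) (v : Fin m × Fin m) : pderiv v (perm ℝ m) ≠ 0 := by
  classical
  intro h
  have h1 : eval (fun _ => (1 : ℝ)) (pderiv v (perm ℝ m)) = 0 := by rw [h, map_zero]
  unfold perm Matrix.permanent at h1
  rw [map_sum, map_sum] at h1
  have h2 : ∀ σ : Equiv.Perm (Fin m), eval (fun _ => (1 : ℝ)) (pderiv v
      (∏ i, (Matrix.of fun i j => (X (i, j) : MvPolynomial (Fin m × Fin m) ℝ)) (σ i) i)) =
        ∑ i, if ((σ i, i) : Fin m × Fin m) = v then 1 else 0 := by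
    intro σ
    exact eval_pderiv_prod Finset.univ (fun i => (σ i, i)) v
  rw [Finset.sum_congr rfl fun σ _ => h2 σ] at h1
  have h3 : (0 : ℝ) < ∑ σ : Equiv.Perm (Fin m), ∑ i,
      if ((σ i, i) : Fin m × Fin m) = v then (1 : ℝ) else 0 := by
    refine Finset.sum_pos' (fun σ _ => Finset.sum_nonneg fun i _ => ?_)
      ⟨Equiv.swap v.1 v.2, Finset.mem_univ _, ?_⟩
    · split_ifs <;> norm_num
    · refine Finset.sum_pos' (fun i _ => ?_) ⟨v.2, Finset.mem_univ _, ?_⟩
      · split_ifs <;> norm_num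
      · rw [if_pos]
        · norm_num
        · rw [Equiv.swap_apply_right]
  exact absurd h1 h3.ne'

private lemma perm_homogeneous (m : ℕ) : (perm ℝ m).IsHomogeneous m := by
  unfold perm Matrix.permanent
  refine IsHomogeneous.sum _ _ _ fun σ _ => ?_
  have h1 := IsHomogeneous.prod (Finset.univ : Finset (Fin m))
    (fun i => (X (σ i, i) : MvPolynomial (Fin m × Fin m) ℝ)) (fun _ => 1)
    (fun i _ => isHomogeneous_X ℝ _)
  simpa using h1

/-- T3' -/
theorem perm_not_dvd_pderiv (m : ℕ) (hm : 1 ≤ m) (i : Fin m × Fin m) :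
    ¬ perm ℝ m ∣ pderiv i (perm ℝ m) := by
  rintro ⟨q, hq⟩
  have h0 := pderiv_perm_ne_zero m i
  have h1 : perm ℝ m ≠ 0 := by
    intro h
    rw [h, map_zero] at h0
    exact h0 rfl
  have h2 : q ≠ 0 := by
    rintro rfl
    rw [mul_zero] at hq
    exact h0 hq
  have h3 : (perm ℝ m).totalDegree = m := (perm_homogeneous m).totalDegree h1
  have h4 : (pderiv i (perm ℝ m)).totalDegree = m - 1 := (perm_homogeneous m).pderiv.totalDegree h0
  have h5 := totalDegree_mul_of_isDomain h1 h2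
  rw [← hq, h3, h4] at h5
  omega

private lemma hasDerivAt_line {σ : Type} [DecidableEq σ] (p : MvPolynomial σ ℝ) (x e : σ → ℝ)
    (i : σ) (he : e = Pi.single i 1) (t : ℝ) :
    HasDerivAt (fun t : ℝ => eval (x + t • e) p) (eval (x + t • e) (pderiv i p)) t := by
  induction p using MvPolynomial.induction_on with
  | C a => simpa using hasDerivAt_const t a
  | add p q hp hq =>
    simp only [map_add]
    exact hp.add hq
  | mul_X p j hp =>
    have h1 : HasDerivAt (fun t : ℝ => (x + t • e) j) (e j) t := by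
      simp only [Pi.add_apply, Pi.smul_apply, smul_eq_mul]
      simpa using ((hasDerivAt_id t).mul_const (e j)).const_add (x j)
    have h2 := hp.mul h1
    have h4 : eval (x + t • e) (pderiv i (X j : MvPolynomial σ ℝ)) = e j := by
      rw [pderiv_X, he]
      by_cases h : j = i
      · subst h
        simp
      · simp [h]
    have h3 : eval (x + t • e) (pderiv i (p * X j)) =
        eval (x + t • e) (pderiv i p) * (x + t • e) j + eval (x + t • e) p * e j := by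
      rw [pderiv_mul, map_add, map_mul, map_mul, eval_X, h4]
    rw [h3]
    simp only [map_mul, eval_X]
    exact h2

/-- T4 -/
theorem perm_sign_change (m : ℕ) (i : Fin m × Fin m) (x0 : Fin m × Fin m → ℝ)
    (h0 : eval x0 (perm ℝ m) = 0) (h1 : eval x0 (pderiv i (perm ℝ m)) ≠ 0)
    (U : Set (Fin m × Fin m → ℝ)) (hU : U ∈ 𝓝 x0) :
    (∃ x ∈ U, 0 < eval x (perm ℝ m)) ∧ ∃ x ∈ U, eval x (perm ℝ m) < 0 := by
  classical
  set c : ℝ := eval x0 (pderiv i (perm ℝ m)) with hc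
  obtain ⟨e, he⟩ : ∃ e : Fin m × Fin m → ℝ, e = Pi.single i 1 := ⟨_, rfl⟩
  set ℓ : ℝ → Fin m × Fin m → ℝ := fun t => x0 + t • e with hℓ
  have hd := hasDerivAt_line (perm ℝ m) x0 e i he 0
  rw [zero_smul, add_zero] at hd
  have h2 : Tendsto (fun t : ℝ => t⁻¹ * eval (ℓ t) (perm ℝ m)) (𝓝[≠] 0) (𝓝 c) := by
    have h3 := hasDerivAt_iff_tendsto_slope_zero.1 hd
    simpa [h0, hℓ] using h3
  have h3 : Tendsto (fun t : ℝ => c * (t⁻¹ * eval (ℓ t) (perm ℝ m))) (𝓝[≠] 0) (𝓝 (c * c)) :=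
    h2.const_mul c
  have h4 : ∀ᶠ t in 𝓝[≠] (0 : ℝ), 0 < c * (t⁻¹ * eval (ℓ t) (perm ℝ m)) :=
    h3.eventually (lt_mem_nhds (mul_self_pos.2 h1))
  have hcont : Continuous ℓ := by
    rw [hℓ]
    fun_prop
  have h5 : ∀ᶠ t in 𝓝[≠] (0 : ℝ), ℓ t ∈ U := by
    have h6 : Tendsto ℓ (𝓝 0) (𝓝 x0) := by
      have := hcont.tendsto 0
      simpa [hℓ] using this
    exact (h6.eventually hU).filter_mono nhdsWithin_le_nhds
  have h6 := h4.and h5
  have hpos : ∃ t : ℝ, 0 < t ∧ 0 < c * (t⁻¹ * eval (ℓ t) (perm ℝ m)) ∧ ℓ t ∈ U := by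
    have h7 : ∀ᶠ t in 𝓝[>] (0 : ℝ), 0 < c * (t⁻¹ * eval (ℓ t) (perm ℝ m)) ∧ ℓ t ∈ U :=
      h6.filter_mono (nhdsWithin_mono _ fun t ht => (ne_of_gt ht))
    obtain ⟨t, ht, h8⟩ := (h7.and self_mem_nhdsWithin).exists
    exact ⟨t, h8, ht⟩
  have hneg : ∃ t : ℝ, t < 0 ∧ 0 < c * (t⁻¹ * eval (ℓ t) (perm ℝ m)) ∧ ℓ t ∈ U := by
    have h7 : ∀ᶠ t in 𝓝[<] (0 : ℝ), 0 < c * (t⁻¹ * eval (ℓ t) (perm ℝ m)) ∧ ℓ t ∈ U :=
      h6.filter_mono (nhdsWithin_mono _ fun t ht => (ne_of_lt ht))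
    obtain ⟨t, ht, h8⟩ := (h7.and self_mem_nhdsWithin).exists
    exact ⟨t, h8, ht⟩
  obtain ⟨t, ht, h7, h8⟩ := hpos
  obtain ⟨s, hs, h9, h10⟩ := hneg
  have e1 : 0 < c * eval (ℓ t) (perm ℝ m) := by
    have : c * eval (ℓ t) (perm ℝ m) = t * (c * (t⁻¹ * eval (ℓ t) (perm ℝ m))) := by
      field_simp
    rw [this]
    exact mul_pos ht h7
  have e2 : c * eval (ℓ s) (perm ℝ m) < 0 := by
    have : c * eval (ℓ s) (perm ℝ m) = s * (c * (s⁻¹ * eval (ℓ s) (perm ℝ m))) := by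
      have hs0 : s ≠ 0 := hs.ne
      field_simp
    rw [this]
    exact mul_neg_of_neg_of_pos hs h9
  rcases lt_or_gt_of_ne h1 with hc0 | hc0
  · exact ⟨⟨ℓ s, h10, by nlinarith⟩, ⟨ℓ t, h8, by nlinarith⟩⟩
  · exact ⟨⟨ℓ t, h8, by nlinarith⟩, ⟨ℓ s, h10, by nlinarith⟩⟩

end Pool.Agent.L5helper59.ZT
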